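import Pool.Agent.Work.MP_973fa8_h22.NoLev

/-!
Q1, structure of a counterexample: an o-minimal expansion of the real field which is not
exponentially bounded defines, for any definable function `h` above level zero (for example
`exp`), a definable path of functions from the identity to `h` such that all iterates of each
function of the path are eventually below every later function of the path. In particular the
exponentially bounded definable functions above level zero fall into a continuum of growth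
classes up to iteration, and whole intervals of them have no level.
-/

set_option autoImplicit false

namespace Pool.Agent.Results.MP_973fa8_lc.FractionalGrowth

open Set Filter Topology Pool.Agent.Work.MP_973fa8.helper46 Pool.Agent.Work.MP_973fa8.h22

/-- `h` is eventually larger than `exp_m (C log_m x)`, for all `m` and `C` -/
def AboveLevelZero (h : ℝ → ℝ) : Prop :=
  ∀ (m : ℕ) (C : ℝ), ∀ᶠ x in atTop, Real.exp^[m] (C * Real.log^[m] x) < h x

/-- `h` has an (integer) level: `log_M (h x) ~ log_N x` for some `M`, `N` -/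
def HasLevel (h : ℝ → ℝ) : Prop :=
  ∃ M N : ℕ, Tendsto (fun x => Real.log^[M] (h x) / Real.log^[N] x) atTop (𝓝 1)

/-- definability (with parameters) of a function of one variable, by its graph -/
def Def1 (L : FirstOrder.Language.{0, 0}) [L.Structure ℝ] (h : ℝ → ℝ) : Prop :=
  Set.Definable (Set.univ : Set ℝ) L {v : Fin 2 → ℝ | h (v 0) = v 1}

/-- definability (with parameters) of a function of two variables, by its graph -/
def Def2 (L : FirstOrder.Language.{0, 0}) [L.Structure ℝ] (Φ : ℝ → ℝ → ℝ) : Prop :=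
  Set.Definable (Set.univ : Set ℝ) L {v : Fin 3 → ℝ | Φ (v 0) (v 1) = v 2}

/-- Let `ℝ` with the structure `L` be an o-minimal expansion of the real field which is not
exponentially bounded. Then `exp` is definable and above level zero, and for every definable `h`
above level zero there is a definable `Φ` such that: for `x` large, `Φ 0 x = x`, `Φ 1 x = h x`
and `Φ · x` is a strictly increasing map of `[0, 1]` onto `[x, h x]`; for `τ > 0`, `m` and `C`,
`exp_m (C log_m x) < Φ t x` for all large `x` and all `t` in `[τ, 1]`; for `τ > 0` and `n`, the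
`n`-th iterate of `Φ s` at `x` is at most `Φ t x` for all large `x` and all `s`, `t` in `[0, 1]`
with `s + τ ≤ t`; and, if `h` is exponentially bounded, no function above level zero which is
eventually at most some `Φ t` with `t < 1` has a level. -/
theorem result (L : FirstOrder.Language.{0, 0}) [L.Structure ℝ]
    (hle : Set.Definable (Set.univ : Set ℝ) L {v : Fin 2 → ℝ | v 0 ≤ v 1})
    (hadd : Set.Definable (Set.univ : Set ℝ) L {v : Fin 3 → ℝ | v 0 + v 1 = v 2})
    (hmul : Set.Definable (Set.univ : Set ℝ) L {v : Fin 3 → ℝ | v 0 * v 1 = v 2})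
    (hfin : ∀ s : Set (Fin 1 → ℝ), Set.Definable (Set.univ : Set ℝ) L s →
      (frontier {x : ℝ | (fun _ : Fin 1 => x) ∈ s}).Finite)
    (f : ℝ → ℝ) (hf : Def1 L f)
    (hO : ¬ ∃ N : ℕ, Asymptotics.IsBigO Filter.atTop f (Nat.iterate Real.exp N)) :
    (Def1 L Real.exp ∧ AboveLevelZero Real.exp) ∧
    (∀ h : ℝ → ℝ, Def1 L h → AboveLevelZero h →
      ∃ Φ : ℝ → ℝ → ℝ, Def2 L Φ ∧
        (∀ᶠ x in atTop, Φ 0 x = x ∧ Φ 1 x = h x ∧
          StrictMonoOn (fun t => Φ t x) (Icc 0 1) ∧
          (fun t => Φ t x) '' Icc 0 1 = Icc x (h x)) ∧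
        (∀ τ : ℝ, 0 < τ → ∀ (m : ℕ) (C : ℝ), ∀ᶠ x in atTop, ∀ t : ℝ, τ ≤ t → t ≤ 1 →
          Real.exp^[m] (C * Real.log^[m] x) < Φ t x) ∧
        (∀ τ : ℝ, 0 < τ → ∀ n : ℕ, ∀ᶠ x in atTop, ∀ s t : ℝ, 0 ≤ s → s + τ ≤ t → t ≤ 1 →
          (Φ s)^[n] x ≤ Φ t x) ∧
        ((∃ K : ℕ, Asymptotics.IsBigO Filter.atTop h (Nat.iterate Real.exp K)) →
          ∀ t : ℝ, 0 ≤ t → t < 1 → ∀ u : ℝ → ℝ, AboveLevelZero u →
          (∀ᶠ x in atTop, u x ≤ Φ t x) → ¬ HasLevel u)) := by
  have o : Omin L := ⟨hle, hadd, hmul, hfin⟩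
  have hN : ∀ N : ℕ, ¬ f =O[atTop] (Real.exp^[N]) := fun N h => hO ⟨N, h⟩
  obtain ⟨hexp, hg⟩ := o.slow (DF.of_graph1 hf) hN
  refine ⟨⟨DF.graph1 hexp, above_exp⟩, fun h hd hA => ?_⟩
  obtain ⟨Φ, h1, h2, h3, h4, h5⟩ := full o hexp hg (DF.of_graph1 hd) hA
  refine ⟨Φ, DF.graph2 h1, h2, h3, h4, ?_⟩
  rintro ⟨K, hK⟩ t ht0 ht1 u hu hut
  exact no_lev_it hu (h5 t ht0 ht1 u hu hut) hK

end Pool.Agent.Results.MP_973fa8_lc.FractionalGrowth
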