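import Pool.Agent.Work.MP_973fa8_h17.HE

/-!
Q1, functions with a definable harmonic extension: in an o-minimal expansion of the real field a
function with a definable harmonic extension to the discs of centre `x` and radius `r x` is bounded
by `exp (C I(x))`, where `I(x)` is the integral of `1 / min t (r t)` over `[a, x]`.
-/

set_option autoImplicit false

namespace Pool.Agent.Results.MP_973fa8_lc.HarmonicExtension

open Set Filter Topology Metric InnerProductSpace MeasureTheory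
  Pool.Agent.Work.MP_973fa8.helper46

/-- definability (with parameters) of a real function on `ℂ = ℝ²`, by its graph -/
def DefPlane (L : FirstOrder.Language.{0, 0}) [L.Structure ℝ] (u : ℂ → ℝ) : Prop :=
  Set.Definable (Set.univ : Set ℝ) L {v : Fin 3 → ℝ | u ⟨v 0, v 1⟩ = v 2}

/-- Let `ℝ` with the structure `L` be an o-minimal expansion of the real field, `u` a definable
function on `ℂ = ℝ²`, `a > 0`, and `r` any function which is positive on `[a, ∞)` (it need not be
definable or monotone) and such that `1 / min t (r t)` is integrable on `[a, x]` for all `x ≥ a`.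
If for all `x ≥ a` the function `u` is harmonic on the disc of centre `x` and radius `r x`, and
`f x = u x`, then `|f x| ≤ exp (C I(x))` for all large `x`, where `I(x)` is the integral of
`1 / min t (r t)` over `[a, x]`. -/
theorem result (L : FirstOrder.Language.{0, 0}) [L.Structure ℝ]
    (hle : Set.Definable (Set.univ : Set ℝ) L {v : Fin 2 → ℝ | v 0 ≤ v 1})
    (hadd : Set.Definable (Set.univ : Set ℝ) L {v : Fin 3 → ℝ | v 0 + v 1 = v 2})
    (hmul : Set.Definable (Set.univ : Set ℝ) L {v : Fin 3 → ℝ | v 0 * v 1 = v 2})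
    (hfin : ∀ s : Set (Fin 1 → ℝ), Set.Definable (Set.univ : Set ℝ) L s →
      (frontier {x : ℝ | (fun _ : Fin 1 => x) ∈ s}).Finite)
    (f : ℝ → ℝ) (u : ℂ → ℝ) (hu : DefPlane L u) (a : ℝ) (ha : 0 < a) (r : ℝ → ℝ)
    (hpos : ∀ x, a ≤ x → 0 < r x)
    (hint : ∀ x, a ≤ x → IntervalIntegrable (fun t => 1 / min t (r t)) volume a x)
    (hharm : ∀ x, a ≤ x → HarmonicOnNhd u (ball ((x : ℝ) : ℂ) (r x)))
    (hext : ∀ x, a ≤ x → u ((x : ℝ) : ℂ) = f x) :
    ∃ C : ℝ, ∀ᶠ x in atTop, |f x| ≤ Real.exp (C * ∫ t in a..x, 1 / min t (r t)) := by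
  have o : Omin L := ⟨hle, hadd, hmul, hfin⟩
  have hu' : DF L (fun v : Fin 2 → ℝ => u ⟨v 0, v 1⟩) :=
    DF.of_graph2 (f := fun s t => u ⟨s, t⟩) hu
  obtain ⟨C, hC⟩ := Pool.Agent.Work.MP_973fa8.h17.thmI o hu' ha hpos hint hharm
  refine ⟨C, ?_⟩
  filter_upwards [hC, eventually_ge_atTop a] with x hx hxa
  rw [← hext x hxa]
  exact hx

/-- `r` non-increasing, `a` arbitrary: the bound `exp (C x / r x)`. -/
theorem antitone_radius (L : FirstOrder.Language.{0, 0}) [L.Structure ℝ]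
    (hle : Set.Definable (Set.univ : Set ℝ) L {v : Fin 2 → ℝ | v 0 ≤ v 1})
    (hadd : Set.Definable (Set.univ : Set ℝ) L {v : Fin 3 → ℝ | v 0 + v 1 = v 2})
    (hmul : Set.Definable (Set.univ : Set ℝ) L {v : Fin 3 → ℝ | v 0 * v 1 = v 2})
    (hfin : ∀ s : Set (Fin 1 → ℝ), Set.Definable (Set.univ : Set ℝ) L s →
      (frontier {x : ℝ | (fun _ : Fin 1 => x) ∈ s}).Finite)
    (f : ℝ → ℝ) (u : ℂ → ℝ) (hu : DefPlane L u) (a : ℝ) (r : ℝ → ℝ)
    (hpos : ∀ x, a ≤ x → 0 < r x) (hanti : AntitoneOn r (Ici a))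
    (hharm : ∀ x, a ≤ x → HarmonicOnNhd u (ball ((x : ℝ) : ℂ) (r x)))
    (hext : ∀ x, a ≤ x → u ((x : ℝ) : ℂ) = f x) :
    ∃ C : ℝ, ∀ᶠ x in atTop, |f x| ≤ Real.exp (C * (x / r x)) := by
  have o : Omin L := ⟨hle, hadd, hmul, hfin⟩
  have hu' : DF L (fun v : Fin 2 → ℝ => u ⟨v 0, v 1⟩) :=
    DF.of_graph2 (f := fun s t => u ⟨s, t⟩) hu
  obtain ⟨C, hC⟩ := Pool.Agent.Work.MP_973fa8.h17.thmH o hu' hpos hanti hharm
  refine ⟨C, ?_⟩
  filter_upwards [hC, eventually_ge_atTop a] with x hx hxa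
  rw [← hext x hxa]
  exact hx

/-- Discs of radius `ε x` (a sector): the bound is polynomial. -/
theorem sector (L : FirstOrder.Language.{0, 0}) [L.Structure ℝ]
    (hle : Set.Definable (Set.univ : Set ℝ) L {v : Fin 2 → ℝ | v 0 ≤ v 1})
    (hadd : Set.Definable (Set.univ : Set ℝ) L {v : Fin 3 → ℝ | v 0 + v 1 = v 2})
    (hmul : Set.Definable (Set.univ : Set ℝ) L {v : Fin 3 → ℝ | v 0 * v 1 = v 2})
    (hfin : ∀ s : Set (Fin 1 → ℝ), Set.Definable (Set.univ : Set ℝ) L s →
      (frontier {x : ℝ | (fun _ : Fin 1 => x) ∈ s}).Finite)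
    (f : ℝ → ℝ) (u : ℂ → ℝ) (hu : DefPlane L u) (a : ℝ) (ha : 0 < a) (ε : ℝ) (hε : 0 < ε)
    (hharm : ∀ x, a ≤ x → HarmonicOnNhd u (ball ((x : ℝ) : ℂ) (ε * x)))
    (hext : ∀ x, a ≤ x → u ((x : ℝ) : ℂ) = f x) :
    ∃ N : ℕ, ∀ᶠ x in atTop, |f x| ≤ x ^ N := by
  set c : ℝ := min 1 ε with hc
  have hc0 : 0 < c := lt_min one_pos hε
  have hmin : ∀ t : ℝ, 0 ≤ t → min t (ε * t) = c * t := by
    intro t ht
    rw [hc, min_mul_of_nonneg _ _ ht, one_mul]
  have hcon : ∀ x, a ≤ x → ContinuousOn (fun t => 1 / min t (ε * t)) (Icc a x) := by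
    intro x hx
    refine continuousOn_const.div
      (continuous_id.min (continuous_const.mul continuous_id)).continuousOn ?_
    intro t ht
    have h1 : 0 < t := ha.trans_le ht.1
    exact (lt_min h1 (mul_pos hε h1)).ne'
  obtain ⟨C, hC⟩ := result L hle hadd hmul hfin f u hu a ha (fun x => ε * x)
    (fun x hx => mul_pos hε (ha.trans_le hx))
    (fun x hx => (hcon x hx).intervalIntegrable_of_Icc hx) hharm hext
  obtain ⟨N, hN⟩ := exists_nat_ge (|C| / c * (1 + 1))
  refine ⟨N, ?_⟩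
  filter_upwards [hC, eventually_ge_atTop a, eventually_ge_atTop 1,
    eventually_ge_atTop (1 / a)] with x hx hxa hx1 hxa2
  have hxp : 0 < x := one_pos.trans_le hx1
  have hI : ∫ t in a..x, 1 / min t (ε * t) = 1 / c * Real.log (x / a) := by
    rw [← integral_one_div_of_pos ha hxp, ← intervalIntegral.integral_const_mul]
    apply intervalIntegral.integral_congr
    intro t ht
    rw [uIcc_of_le hxa] at ht
    simp only
    rw [hmin t (ha.trans_le ht.1).le]
    field_simp
  rw [hI] at hx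
  refine hx.trans ?_
  have hlog : 0 ≤ Real.log x := Real.log_nonneg hx1
  have h1 : Real.log (x / a) ≤ (1 + 1) * Real.log x := by
    rw [Real.log_div hxp.ne' ha.ne']
    have h2 : -Real.log a ≤ Real.log x := by
      rw [← Real.log_inv, ← one_div]
      exact Real.log_le_log (one_div_pos.2 ha) hxa2
    linarith
  have h0 : 0 ≤ Real.log (x / a) := Real.log_nonneg ((one_le_div ha).2 hxa)
  have h3 : C * (1 / c * Real.log (x / a)) ≤ N * Real.log x := by
    calc C * (1 / c * Real.log (x / a)) ≤ |C| * (1 / c * Real.log (x / a)) :=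
          mul_le_mul_of_nonneg_right (le_abs_self C) (by positivity)
      _ ≤ |C| * (1 / c * ((1 + 1) * Real.log x)) := by gcongr
      _ = |C| / c * (1 + 1) * Real.log x := by ring
      _ ≤ N * Real.log x := mul_le_mul_of_nonneg_right hN hlog
  refine (Real.exp_le_exp.2 h3).trans (le_of_eq ?_)
  rw [Real.exp_nat_mul, Real.exp_log hxp]

end Pool.Agent.Results.MP_973fa8_lc.HarmonicExtension
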