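import Pool.Agent.Work.MP_973fa8_h22.Ode3

/-!
Q1, functions obtained from an exponentially bounded o-minimal structure by one differential
equation of first order: a function `y` tending to infinity with `y'` comparable to `F(y)` is
exponentially bounded if and only if `F(u) / (u F(log u))` tends to `0`, otherwise the quotient
tends to a number in `(0, 1]`; the quotient still tends to a positive number if `y'` and `F(y)`
are comparable up to exponentially bounded functions of `x` and `y` is not exponentially bounded.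
-/

set_option autoImplicit false

namespace Pool.Agent.Results.MP_973fa8_lc.OdeGrowth

open Set Filter Topology Pool.Agent.Work.MP_973fa8.helper46 Pool.Agent.Work.MP_973fa8.h22

/-- definability (with parameters) of a function of one variable, by its graph -/
def Def1 (L : FirstOrder.Language.{0, 0}) [L.Structure ℝ] (h : ℝ → ℝ) : Prop :=
  Set.Definable (Set.univ : Set ℝ) L {v : Fin 2 → ℝ | h (v 0) = v 1}

/-- Let `ℝ` with the structure `L` be an exponentially bounded o-minimal expansion of the real
field which defines `exp`, let `F` be definable, and let `y` be any function which is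
differentiable for large `x`, with derivative `d x`, and tends to infinity. (1) If
`F (y x) / exp_N x ≤ d x ≤ exp_N x * F (y x)` for large `x` and `y` is not exponentially bounded,
then `F u / (u * F (log u))` tends to a positive number. (2) If
`A * F (y x) ≤ d x ≤ B * F (y x)` for large `x` with positive `A`, `B`, then
`F u / (u * F (log u))` has a limit `c` with `0 ≤ c ≤ 1`, and `y` is exponentially bounded if and
only if `c = 0`. -/
theorem result (L : FirstOrder.Language.{0, 0}) [L.Structure ℝ]
    (hle : Set.Definable (Set.univ : Set ℝ) L {v : Fin 2 → ℝ | v 0 ≤ v 1})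
    (hadd : Set.Definable (Set.univ : Set ℝ) L {v : Fin 3 → ℝ | v 0 + v 1 = v 2})
    (hmul : Set.Definable (Set.univ : Set ℝ) L {v : Fin 3 → ℝ | v 0 * v 1 = v 2})
    (hfin : ∀ s : Set (Fin 1 → ℝ), Set.Definable (Set.univ : Set ℝ) L s →
      (frontier {x : ℝ | (fun _ : Fin 1 => x) ∈ s}).Finite)
    (hexp : Def1 L Real.exp)
    (hb : ∀ f : ℝ → ℝ, Def1 L f →
      ∃ N : ℕ, Asymptotics.IsBigO Filter.atTop f (Nat.iterate Real.exp N))
    (F : ℝ → ℝ) (hF : Def1 L F) (y d : ℝ → ℝ)
    (hy : ∀ᶠ x in atTop, HasDerivAt y (d x) x) (htt : Tendsto y atTop atTop) :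
    (∀ N : ℕ, (∀ᶠ x in atTop, F (y x) / Nat.iterate Real.exp N x ≤ d x ∧
        d x ≤ Nat.iterate Real.exp N x * F (y x)) →
      (¬ ∃ K : ℕ, Asymptotics.IsBigO Filter.atTop y (Nat.iterate Real.exp K)) →
      ∃ c : ℝ, 0 < c ∧ Tendsto (fun u => F u / (u * F (Real.log u))) atTop (𝓝 c)) ∧
    (∀ A B : ℝ, 0 < A → 0 < B →
      (∀ᶠ x in atTop, A * F (y x) ≤ d x ∧ d x ≤ B * F (y x)) →
      ∃ c : ℝ, 0 ≤ c ∧ c ≤ 1 ∧ Tendsto (fun u => F u / (u * F (Real.log u))) atTop (𝓝 c) ∧
        ((∃ K : ℕ, Asymptotics.IsBigO Filter.atTop y (Nat.iterate Real.exp K)) ↔ c = 0)) := by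
  have o : Omin L := ⟨hle, hadd, hmul, hfin⟩
  constructor
  · intro N hd hn
    obtain ⟨a, ha⟩ := eventually_atTop.1 (hy.and hd)
    refine odx_main o (DF.of_graph1 hexp) (fun f hf => hb f (DF.graph1 hf)) (DF.of_graph1 hF)
      (fun x hx => (ha x hx).1) N (fun x hx => ?_) (fun x hx => (ha x hx).2.2) htt hn
    have h1 := (ha x hx).2.1
    rw [div_eq_inv_mul] at h1
    exact h1
  · intro A B hA hB hd
    obtain ⟨a, ha⟩ := eventually_atTop.1 (hy.and hd)
    exact ode_main' o (DF.of_graph1 hexp) (fun f hf => hb f (DF.graph1 hf)) (DF.of_graph1 hF)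
      (fun x hx => (ha x hx).1) hA (fun x hx => (ha x hx).2.1) hB (fun x hx => (ha x hx).2.2) htt

end Pool.Agent.Results.MP_973fa8_lc.OdeGrowth
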