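import Pool.Agent.Work.MP_973fa8_h17.PC

/-!
Q1, definable solutions of linear parabolic equations: in an o-minimal expansion of the real field
let `u` be a definable function of `x` and `t` which solves, for `x > a` and `α < t < β`, a linear
parabolic equation `u_t = A u_xx + B u_x + C u` with arbitrary coefficient functions bounded in terms
of a function `K` of `x`. Then `u (·, t)` has a Gaussian bound in terms of `K` for all `t` outside a
finite set; it is exponentially bounded if `K` is.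
-/

set_option autoImplicit false

namespace Pool.Agent.Results.MP_973fa8_lc.ParabolicSolutions

open Set Filter Topology Pool.Agent.Work.MP_973fa8.helper46 Pool.Agent.Work.MP_973fa8.h17

/-- definability (with parameters) of a function of two variables, by its graph -/
def Def2 (L : FirstOrder.Language.{0, 0}) [L.Structure ℝ] (u : ℝ → ℝ → ℝ) : Prop :=
  Set.Definable (Set.univ : Set ℝ) L {v : Fin 3 → ℝ | u (v 0) (v 1) = v 2}

/-- `u` is continuous on the half strip `x > a`, `α < t < β`, has derivatives `u_t`, `u_x`, `u_xx`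
there, and solves `u_t = A u_xx + B u_x + C u` with some functions `A`, `B`, `C` (not necessarily
definable, measurable or continuous) such that `1 / K x ≤ A ≤ K x` and `|B|, |C| ≤ K x`. -/
def ParabolicSolution (u : ℝ → ℝ → ℝ) (a α β : ℝ) (K : ℝ → ℝ) : Prop :=
  ContinuousOn (fun p : ℝ × ℝ => u p.1 p.2) {p | a < p.1 ∧ α < p.2 ∧ p.2 < β} ∧
  ∃ ut ux uxx A B C : ℝ → ℝ → ℝ, ∀ x t, a < x → α < t → t < β →
    HasDerivAt (fun s => u x s) (ut x t) t ∧ HasDerivAt (fun y => u y t) (ux x t) x ∧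
    HasDerivAt (fun y => ux y t) (uxx x t) x ∧
    ut x t = A x t * uxx x t + B x t * ux x t + C x t * u x t ∧
    (K x)⁻¹ ≤ A x t ∧ A x t ≤ K x ∧ |B x t| ≤ K x ∧ |C x t| ≤ K x

theorem le_it (N : ℕ) (x : ℝ) : x ≤ Real.exp^[N] x := by
  induction N with
  | zero => exact le_rfl
  | succ N ih =>
    rw [Function.iterate_succ_apply']
    linarith [Real.add_one_le_exp (Real.exp^[N] x)]

theorem mono_it (N : ℕ) : Monotone (Real.exp^[N]) := Real.exp_monotone.iterate N

/-- Let `ℝ` with the structure `L` be an o-minimal expansion of the real field, `u` a definable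
function of two variables and `K ≥ 1` a non-decreasing function (not necessarily definable) such that
`u` is a solution as in `ParabolicSolution`. Then there is a finite set `E` such that for all `t` in
`(α, β)` outside `E` there is `c` with `|u x t| ≤ exp (c (K (x + 2)) ^ 3 x ^ 2)` for all large `x`; and
`u (·, t) = O (exp_M)` for some `M` if `K = O (exp_N)` for some `N`. -/
theorem result (L : FirstOrder.Language.{0, 0}) [L.Structure ℝ]
    (hle : Set.Definable (Set.univ : Set ℝ) L {v : Fin 2 → ℝ | v 0 ≤ v 1})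
    (hadd : Set.Definable (Set.univ : Set ℝ) L {v : Fin 3 → ℝ | v 0 + v 1 = v 2})
    (hmul : Set.Definable (Set.univ : Set ℝ) L {v : Fin 3 → ℝ | v 0 * v 1 = v 2})
    (hfin : ∀ s : Set (Fin 1 → ℝ), Set.Definable (Set.univ : Set ℝ) L s →
      (frontier {x : ℝ | (fun _ : Fin 1 => x) ∈ s}).Finite)
    (u : ℝ → ℝ → ℝ) (hu : Def2 L u) (a α β : ℝ) (K : ℝ → ℝ) (hK : Monotone K)
    (hK1 : ∀ x, 1 ≤ K x) (hsol : ParabolicSolution u a α β K) :
    ∃ E : Set ℝ, E.Finite ∧ ∀ t, α < t → t < β → t ∉ E →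
      (∃ c : ℝ, ∀ᶠ x in atTop, |u x t| ≤ Real.exp (c * K (x + 2) ^ 3 * x ^ 2)) ∧
      ((∃ N : ℕ, Asymptotics.IsBigO atTop K (Real.exp^[N])) →
        ∃ M : ℕ, Asymptotics.IsBigO atTop (fun x => u x t) (Real.exp^[M])) := by
  have o : Omin L := ⟨hle, hadd, hmul, hfin⟩
  obtain ⟨hc, ut, ux, uxx, A, B, C, hall⟩ := hsol
  have hP : Par u ut ux uxx A B C a α β K :=
    { cont := hc
      dt := fun x t h1 h2 h3 => (hall x t h1 h2 h3).1
      dx := fun x t h1 h2 h3 => (hall x t h1 h2 h3).2.1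
      dxx := fun x t h1 h2 h3 => (hall x t h1 h2 h3).2.2.1
      eq := fun x t h1 h2 h3 => (hall x t h1 h2 h3).2.2.2.1
      bA := fun x t h1 h2 h3 => ⟨(hall x t h1 h2 h3).2.2.2.2.1, (hall x t h1 h2 h3).2.2.2.2.2.1⟩
      bB := fun x t h1 h2 h3 => (hall x t h1 h2 h3).2.2.2.2.2.2.1
      bC := fun x t h1 h2 h3 => (hall x t h1 h2 h3).2.2.2.2.2.2.2 }
  obtain ⟨E, hE, hb⟩ := thmP o (DF.of_graph2 hu) hP hK hK1
  refine ⟨E, hE, fun t h1 h2 h3 => ?_⟩
  obtain ⟨c, hcb⟩ := hb t h1 h2 h3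
  refine ⟨⟨c, hcb⟩, ?_⟩
  rintro ⟨N, hN⟩
  refine ⟨N + 3, ?_⟩
  obtain ⟨D, hD⟩ := hN.bound
  obtain ⟨X, hX⟩ := eventually_atTop.1 hD
  have hY : Tendsto (fun x : ℝ => Real.exp^[N + 1] x) atTop atTop :=
    tendsto_atTop_mono (le_it (N + 1)) tendsto_id
  have hpow : ∀ᶠ y : ℝ in atTop, |c| * |D| ^ 3 * y ^ 5 ≤ Real.exp y := by
    have h4 := (Real.isLittleO_pow_exp_atTop (n := 5)).def (c := (|c| * |D| ^ 3 + 1)⁻¹) (by positivity)
    filter_upwards [h4, eventually_ge_atTop 0] with y hy hy0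
    rw [Real.norm_of_nonneg (by positivity), Real.norm_of_nonneg (Real.exp_pos _).le,
      inv_mul_eq_div, le_div_iff₀ (by positivity)] at hy
    have h5 : 0 ≤ y ^ 5 := by positivity
    linarith
  rw [Asymptotics.isBigO_iff]
  refine ⟨1, ?_⟩
  filter_upwards [hcb, hY.eventually hpow, eventually_ge_atTop X, eventually_ge_atTop 2] with x hx h5 h6 h7
  have hxe : x + 2 ≤ Real.exp x := by
    have h8 := Real.add_one_le_exp (x / 2)
    have h9 : Real.exp x = Real.exp (x / 2) * Real.exp (x / 2) := by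
      rw [← Real.exp_add]
      congr 1
      ring
    rw [h9]
    nlinarith
  have hKx : K (x + 2) ≤ |D| * Real.exp^[N + 1] x := by
    have h8 := hX (x + 2) (by linarith)
    have h9 : Real.exp^[N] (x + 2) ≤ Real.exp^[N + 1] x := by
      rw [Function.iterate_succ_apply]
      exact mono_it N hxe
    have h10 : 0 ≤ Real.exp^[N] (x + 2) := by linarith [le_it N (x + 2)]
    rw [Real.norm_of_nonneg (by linarith [hK1 (x + 2)]), Real.norm_of_nonneg h10] at h8
    calc K (x + 2) ≤ D * Real.exp^[N] (x + 2) := h8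
      _ ≤ |D| * Real.exp^[N] (x + 2) := mul_le_mul_of_nonneg_right (le_abs_self D) h10
      _ ≤ |D| * Real.exp^[N + 1] x := mul_le_mul_of_nonneg_left h9 (abs_nonneg D)
  have hxY : x ≤ Real.exp^[N + 1] x := le_it (N + 1) x
  have hmain : c * K (x + 2) ^ 3 * x ^ 2 ≤ Real.exp (Real.exp^[N + 1] x) := by
    obtain ⟨Y, hYe⟩ : ∃ Y : ℝ, Y = Real.exp^[N + 1] x := ⟨_, rfl⟩
    rw [← hYe] at h5 hKx hxY ⊢
    have h8 : K (x + 2) ^ 3 ≤ (|D| * Y) ^ 3 :=
      pow_le_pow_left₀ (by linarith [hK1 (x + 2)]) hKx 3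
    have h9 : x ^ 2 ≤ Y ^ 2 := pow_le_pow_left₀ (by linarith) hxY 2
    have h10 : 0 ≤ K (x + 2) ^ 3 := pow_nonneg (by linarith [hK1 (x + 2)]) 3
    have h11 : K (x + 2) ^ 3 * x ^ 2 ≤ (|D| * Y) ^ 3 * Y ^ 2 :=
      mul_le_mul h8 h9 (by positivity) (h10.trans h8)
    calc c * K (x + 2) ^ 3 * x ^ 2 = c * (K (x + 2) ^ 3 * x ^ 2) := by ring
      _ ≤ |c| * (K (x + 2) ^ 3 * x ^ 2) :=
        mul_le_mul_of_nonneg_right (le_abs_self c) (mul_nonneg h10 (by positivity))
      _ ≤ |c| * ((|D| * Y) ^ 3 * Y ^ 2) := mul_le_mul_of_nonneg_left h11 (abs_nonneg c)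
      _ = |c| * |D| ^ 3 * Y ^ 5 := by ring
      _ ≤ Real.exp Y := h5
  rw [Real.norm_eq_abs, one_mul]
  refine hx.trans ?_
  have h12 : Real.exp^[N + 3] x = Real.exp (Real.exp (Real.exp^[N + 1] x)) := by
    rw [Function.iterate_succ_apply', Function.iterate_succ_apply']
  rw [h12, Real.norm_of_nonneg (Real.exp_pos _).le]
  exact Real.exp_le_exp.2 hmain

end Pool.Agent.Results.MP_973fa8_lc.ParabolicSolutions
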